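import Pool.Agent.Helper94_ABB.Q1Pf

/-!
# Q1 (MP_d857f1_al, part B, section 5): existence, minimality and the count
-/

set_option autoImplicit false

namespace Pool.Agent.ABA.B.H94

open Knd Pool.Agent.ABA Pool.Agent.ABA.B Pool.Agent.ABA.B.TG Pool.Agent.ABA.B.H17
  Pool.Agent.ABA.B.H49 Pool.Agent.ABA.B.H50 Pool.Agent.ABA.B.H89

variable {G : Type} [Group G] {A B : Subgroup G} {g : G}
variable {hg : ¬ IsABA A B g} {hgeo : Geo A B} {hι : Function.Injective (Pι A B g)}

/-- existence of polygons -/
theorem q_ex (hF : FixStmt A B g) {c H : Car A B g} {z : PP A B g} (hz : z • c = c) (h1 : z ≠ 1)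
    {n : XV A B g} (hn : On H n) (hn' : On (z • H) n) :
    ∃ p γ s al be, QP hg hgeo hι c H z n (dCC hg hgeo hι c H) p γ s al be := by
  obtain ⟨p, hp, hd⟩ := exists_dCC_slit (hg := hg) (hgeo := hgeo) (hι := hι) H c
  obtain ⟨y, γ, hy, hγ, hl⟩ := exists_slit (hg := hg) (hgeo := hgeo) (hι := hι) p c
  obtain ⟨al, hal⟩ := car_conn hg hgeo hι hn hp
  obtain ⟨be, hbe⟩ := car_conn hg hgeo hι (hp.smul z) hn'
  have hlen : γ.length = dCC hg hgeo hι c H := by rw [hl, hd, dCC_comm]
  by_cases hr : Rot z
  · have hzy : z • y = y := ((hF c z h1 hz).1 hr y).2 hy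
    refine ⟨p, γ, [], al, be, hal, hbe, ⟨hlen, ⟨y, hy, hγ, ?_⟩, fun _ => rfl⟩⟩
    rw [hzy]
    exact ⟨rfl, by simp⟩
  · have hzy : On c (z • y) := by
      have := hy.smul z
      rwa [hz] at this
    obtain ⟨s, hs⟩ := car_conn hg hgeo hι hy hzy
    exact ⟨p, γ, s, al, be, hal, hbe, ⟨hlen, ⟨y, hy, hγ, hs⟩, fun h => absurd h hr⟩⟩

/-- existence of minimal polygons -/
theorem q_min (hF : FixStmt A B g) {c H : Car A B g} {z : PP A B g} (hz : z • c = c) (h1 : z ≠ 1)
    {n : XV A B g} (hn : On H n) (hn' : On (z • H) n) :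
    ∃ p γ s al be, QP hg hgeo hι c H z n (dCC hg hgeo hι c H) p γ s al be ∧
      QMin hg hgeo hι c H z n (dCC hg hgeo hι c H) γ s al be := by
  obtain ⟨p, γ, s, al, be, h⟩ := q_ex (hg := hg) (hgeo := hgeo) (hι := hι) hF hz h1 hn hn'
  obtain ⟨⟨p, γ, s, al, be⟩, h2, h3⟩ := lex_min
    (A := XV A B g × List (XE A B g) × List (XE A B g) × List (XE A B g) × List (XE A B g))
    (fun x => QP hg hgeo hι c H z n (dCC hg hgeo hι c H) x.1 x.2.1 x.2.2.1 x.2.2.2.1 x.2.2.2.2)
    (fun x => (XX hg hgeo hι).ar (x.2.2.2.1 ++ lobe hg hgeo hι z x.2.1 x.2.2.1 ++ x.2.2.2.2))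
    (fun x => x.2.2.2.1.length + x.2.2.2.2.length + x.2.2.1.length) ⟨(p, γ, s, al, be), h⟩
  exact ⟨p, γ, s, al, be, h2, fun p' γ' s' al' be' h' => h3 (p', γ', s', al', be') h'⟩

/-- sum of the values at the positions `a + 1, …, b` -/
def tv {E : Type} (W : ℕ → List E) (a b : ℕ) : ℤ := ∑ i ∈ Finset.Ico (a + 1) (b + 1), vl W i

theorem tv_split {E : Type} (W : ℕ → List E) {a b : ℕ} (h : a < b) :
    tv W a b = vsum W a b + vl W b := by
  unfold tv vsum
  rw [Finset.sum_Ico_succ_top (by omega)]

theorem tv_add {E : Type} (W : ℕ → List E) {a b c : ℕ} (h : a ≤ b) (h' : b ≤ c) :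
    tv W a c = tv W a b + tv W b c := by
  unfold tv
  rw [Finset.sum_Ico_consecutive _ (by omega) (by omega)]

theorem tv_total {E : Type} (W : ℕ → List E) (N : ℕ) :
    ∑ i ∈ Finset.range N, ((4 : ℤ) - (W (i + 1)).length) = tv W 0 N := by
  unfold tv vl
  rw [Finset.sum_Ico_eq_sum_range]
  refine Finset.sum_congr rfl (fun i _ => ?_)
  rw [show 0 + 1 + i = i + 1 by omega]

theorem tv_self {E : Type} (W : ℕ → List E) (a : ℕ) : tv W a a = 0 := by
  unfold tv; simp

theorem vl_le {w : List (XE A B g)} {a : ℕ → XE A B g} {W : ℕ → List (XE A B g)}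
    {I : List (List (XE A B g))} (h : DW (XX hg hgeo hι) w a W I) (i : ℕ) : vl W i ≤ 2 := by
  have := two_le h.bd i
  unfold vl
  omega

/-- the walk at a position -/
theorem dw_wk {w : List (XE A B g)} {a : ℕ → XE A B g} {W : ℕ → List (XE A B g)}
    {I : List (List (XE A B g))} (h : DW (XX hg hgeo hι) w a W I) {l r : List (XE A B g)}
    {b c : XE A B g} (hw : w = l ++ b :: c :: r) :
    Wk (XX hg hgeo hι) (W (l.length + 1)) (xinv b) c ∧ a l.length = b ∧ a (l.length + 1) = c := by
  have e1 : a l.length = b := by
    rw [h.get l.length (by rw [hw]; simp)]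
    subst hw
    simp
  have e2 : a (l.length + 1) = c := by
    rw [h.get (l.length + 1) (by rw [hw]; simp)]
    subst hw
    simp [List.getElem_append_right]
  obtain ⟨f1, f2, l1, r1, hT, hW, hW'⟩ := h.bd.edg l.length
  obtain ⟨g1, g2, l2, r2, hT', hW2, hW2'⟩ := h.bd.edg (l.length + 1)
  refine ⟨⟨h.bd.chain _, ?_, ?_⟩, e1, e2⟩
  · rw [hW', e1]; rfl
  · rw [hW2, e2]; simp

/-- **Q1** -/
theorem q1 (hA : ∀ x ∈ A, ∀ y ∈ A, x * y = y * x) (M : Mods) (hSC : (XX hg hgeo hι).SC)
    (hF : FixStmt A B g) (hS : StabStmt A B g) (hEx : ExDWStmt)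
    (hFl : FlatStmt hg hgeo hι) (hInt : IntLStmt hg hgeo hι) (hIF : IntFStmt hg hgeo hι)
    (hAt : AttachStmt hg hgeo hι) (hFt : FootStmt hg hgeo hι) : Q1Stmt hg hgeo hι := by
  intro c H z hz h1 hcH hk1 hnt n hn hn'
  have hHz : H ≠ z • H := by
    intro e
    exact hcH (hS c H z h1 hz e.symm)
  have huniq : ∀ x, On H x → On (z • H) x → x = n := fun x a b =>
    two_gon (hg := hg) (hgeo := hgeo) (hι := hι) hA M hSC hHz a hn b hn'
  obtain ⟨p, γ, s, al, be, h, hm⟩ := q_min (hg := hg) (hgeo := hgeo) (hι := hι) hF hz h1 hn hn'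
  obtain ⟨k, hk⟩ : ∃ k, k = dCC hg hgeo hι c H := ⟨_, rfl⟩
  rw [← hk] at h hm hk1
  have hPF := q_pf hF hz h1 hk hk1 huniq hn hn' h hm
  obtain ⟨y, hy, hγ, hs⟩ := h.lob.mid
  have hlen := h.lob.len
  have hp : On H p := h.al.on hn
  have hlb : (lobe hg hgeo hι z γ s).length = k + s.length + k := by
    unfold lobe; simp [hlen]; omega
  have hdp : k ≤ dVC hg hgeo hι p c := by rw [hk]; exact far_H hp
  obtain ⟨w, hw⟩ : ∃ w, w = al ++ lobe hg hgeo hι z γ s ++ be := ⟨_, rfl⟩
  have hwlen : w.length = al.length + (k + s.length + k) + be.length := by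
    rw [hw, List.length_append, List.length_append, hlb]
  have hcl : (XX hg hgeo hι).Cl w := by
    refine ⟨n, ?_⟩
    rw [hw]
    refine isP_append.2 ⟨z • p, isP_append.2 ⟨p, h.al.1, ?_⟩, h.be.1⟩
    exact isP_append.2 ⟨z • y, isP_append.2 ⟨y, hγ, hs.1⟩, IsP_act z hγ.rv⟩
  -- not both hub sides are empty
  have hne : al ≠ [] ∨ be ≠ [] := by
    by_contra hcon
    rw [not_or, not_not, not_not] at hcon
    obtain ⟨rfl, rfl⟩ := hcon
    have e1 : n = p := h.al.nil_eq
    have e2 : z • p = n := h.be.nil_eq
    refine no_fix hF hz h1 (x := p) ?_ (by rw [e2, e1])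
    intro hc
    rw [dVC_on hc] at hdp
    omega
  have hlab : 1 ≤ al.length + be.length := by
    rcases hne with h | h
    · have := List.length_pos_iff.2 h; omega
    · have := List.length_pos_iff.2 h; omega
  obtain ⟨a, W, I, D⟩ := hEx _ _ (XX hg hgeo hι) M hSC w hcl (by rw [hw]; exact hPF)
    (by intro e; rw [e] at hwlen; simp at hwlen; omega)
    (by intro e he; rw [he] at hwlen; simp at hwlen; omega)
  have hsix := six_le D.bd (hsysX (hg := hg) (hgeo := hgeo) (hι := hι) hA)
  rw [tv_total] at hsix
  -- the lobe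
  have hLM : LobeMin hg hgeo hι c z p k al γ s be :=
    ⟨h.lob, hdp, hz, h1, fun γ' s' hl => by
      have := hm p γ' s' al be ⟨h.al, h.be, hl⟩
      refine ⟨this.1, fun h2 => ?_⟩
      have := this.2 h2
      omega⟩
  have hint : vsum W al.length (al.length + (k + s.length + k)) ≤ 1 := by
    have hi := hInt hA M hSC c z p k al γ s be w a W I hw hcl D hLM hk1
    rw [hlb] at hi
    by_cases hr : Rot z
    · exact hi.1 hr
    · rcases car_cases c with ⟨q, hq⟩ | ⟨q, hq⟩
      · have := hi.2.1 hr ⟨q, hq⟩
        omega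
      · refine hi.2.2.2 hr ⟨q, hq⟩ ?_
        rcases hnt ⟨q, hq⟩ with h | h
        · exact absurd h hr
        · exact h
  -- the hub sides
  have hFal : FlatMin hg hgeo hι H n p [] al (lobe hg hgeo hι z γ s ++ be) := by
    refine ⟨h.al, fun s' hs' => ?_⟩
    have := hm p γ s s' be ⟨hs', h.be, h.lob⟩
    simp only [List.nil_append, ← List.append_assoc]
    refine ⟨this.1, fun h2 => ?_⟩
    have := this.2 h2
    omega
  have hFbe : FlatMin hg hgeo hι (z • H) (z • p) n (al ++ lobe hg hgeo hι z γ s) be [] := by
    refine ⟨h.be, fun s' hs' => ?_⟩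
    have := hm p γ s al s' ⟨h.al, hs', h.lob⟩
    simp only [List.append_nil]
    refine ⟨this.1, fun h2 => ?_⟩
    have := this.2 h2
    omega
  have hw1 : w = [] ++ al ++ (lobe hg hgeo hι z γ s ++ be) := by rw [hw]; simp
  have hw2 : w = (al ++ lobe hg hgeo hι z γ s) ++ be ++ [] := by rw [hw]; simp
  have hlal : (al ++ lobe hg hgeo hι z γ s).length = al.length + (k + s.length + k) := by
    rw [List.length_append, hlb]
  have hial : al ≠ [] → vsum W 0 al.length ≤ 0 := by
    intro hal
    have h2 := (hIF hA M hSC H n p [] al _ w a W I hw1 hcl D hFal hal).2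
    have h3 := List.length_pos_iff.2 hal
    simp only [List.length_nil, Nat.zero_add] at h2
    omega
  have hibe : be ≠ [] → vsum W (al.length + (k + s.length + k)) w.length ≤ 0 := by
    intro hbe
    have h2 := (hIF hA M hSC (z • H) (z • p) n _ be [] w a W I hw2 hcl D hFbe hbe).2
    have h3 := List.length_pos_iff.2 hbe
    rw [hlal] at h2
    rw [hwlen]
    omega
  have hend := vl_le D w.length
  have hv1 := vl_le D al.length
  have hv2 := vl_le D (al.length + (k + s.length + k))
  by_cases hal : al = []
  · -- no first side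
    have hbe : be ≠ [] := by
      rcases hne with h | h
      · exact absurd hal h
      · exact h
    have hb1 := List.length_pos_iff.2 hbe
    subst hal
    simp only [List.length_nil, Nat.zero_add] at hwlen hint hibe hv2
    rw [tv_add W (b := k + s.length + k) (by omega) (by omega), tv_split W (by omega),
      tv_split W (by omega)] at hsix
    have := hibe hbe
    omega
  · have ha1 := List.length_pos_iff.2 hal
    by_cases hbe : be = []
    · -- no second side
      subst hbe
      simp only [List.length_nil, Nat.add_zero] at hwlen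
      rw [← hwlen] at hint
      rw [tv_add W (b := al.length) (by omega) (by omega), tv_split W (by omega),
        tv_split W (by omega)] at hsix
      have := hial hal
      omega
    · have hb1 := List.length_pos_iff.2 hbe
      rw [tv_add W (b := al.length) (by omega) (by omega),
        tv_add W (a := al.length) (b := al.length + (k + s.length + k)) (by omega) (by omega),
        tv_split W (by omega), tv_split W (by omega), tv_split W (by omega)] at hsix
      have i1 := hial hal
      have i2 := hibe hbe
      have hatt : vl W al.length + vl W (al.length + (k + s.length + k)) ≤ 2 := by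
        -- the letters
        obtain ⟨al', e0, hal'⟩ : ∃ l e, al = l ++ [e] :=
          ⟨al.dropLast, al.getLast hal, (List.dropLast_append_getLast hal).symm⟩
        obtain ⟨b0, be', hbe'⟩ := List.exists_cons_of_ne_nil hbe
        have hγne : γ ≠ [] := by
          intro e; rw [e] at hlen; simp at hlen; omega
        obtain ⟨e, γ', hγ'⟩ := List.exists_cons_of_ne_nil hγne
        obtain ⟨x, hx⟩ : ∃ x, x = actE z⁻¹ b0 := ⟨_, rfl⟩
        have hxb : b0 = actE z x := by
          rw [hx, ← Function.comp_apply (f := actE z), ← actE_mul, mul_inv_cancel, actE_one]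
          rfl
        obtain ⟨m, hmm⟩ : ∃ m, m = γ' ++ s ++ ((XX hg hgeo hι).rv γ').map (actE z) := ⟨_, rfl⟩
        have hwd : ∀ (l' : List (XE A B g)) (e' : XE A B g) (r' : List (XE A B g)),
            l' ++ lobe hg hgeo hι z (e' :: γ') s ++ r' =
              l' ++ e' :: (m ++ actE z (xinv e') :: r') := by
          intro l' e' r'
          unfold lobe
          rw [rv_cons, hmm, List.map_append]
          simp only [List.append_assoc, List.cons_append, List.map_cons, List.map_nil,
            List.nil_append]
          rfl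
        have hw3 : w = al' ++ e0 :: e :: (m ++ actE z (xinv e) :: b0 :: be') := by
          rw [hw, hγ', hwd, hal', hbe']
          simp
        have hlm : m.length + 2 = k + s.length + k := by
          rw [hmm]
          have : γ.length = γ'.length + 1 := by rw [hγ']; simp
          simp only [List.length_append, List.length_map, rv_length]
          omega
        have hlal' : al.length = al'.length + 1 := by rw [hal']; simp
        obtain ⟨w1, -, -⟩ := dw_wk D hw3
        have hw4 : w = (al' ++ e0 :: e :: m) ++ actE z (xinv e) :: b0 :: be' := by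
          rw [hw3]; simp
        obtain ⟨w2, -, -⟩ := dw_wk D hw4
        have hl4 : (al' ++ e0 :: e :: m).length + 1 = al.length + (k + s.length + k) := by
          simp only [List.length_append, List.length_cons]
          omega
        rw [hl4] at w2
        rw [← hlal'] at w1
        have hxx : xinv (actE z (xinv e)) = actE z e := by
          rw [xinv_act]
          congr 1
          exact (XX hg hgeo hι).inv_inv e
        rw [hxx, hxb] at w2
        -- carriers
        have ce0 : car e0 = H := h.al.2 e0 (by rw [hal']; simp)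
        have cb0 : car b0 = z • H := h.be.2 b0 (by rw [hbe']; simp)
        have cx : car x = H := by
          rw [hx, car_act, cb0, inv_smul_smul]
        have ce : car e ≠ H := by
          intro hc
          have k1 : On H ((XX hg hgeo hι).tgt e) := by
            rw [← hc]; exact On_tgt e
          rw [hγ'] at hγ
          have k2 := dVC_path (hg := hg) (hgeo := hgeo) (hι := hι) hy hγ.2
          have k3 := far_H (hg := hg) (hgeo := hgeo) (hι := hι) (c := c) k1
          have k4 : γ.length = γ'.length + 1 := by rw [hγ']; simp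
          omega
        -- T-corners
        have t1 := (hFl hA M hSC H n p [] al _ w a W I hw1 hcl D hFal).1 al'.length (by simp)
          (by simp; omega)
        have t2 := (hFl hA M hSC (z • H) (z • p) n _ be [] w a W I hw2 hcl D hFbe).1
          (al.length + (k + s.length + k)) (by rw [hlal]) (by rw [hlal]; omega)
        rw [← hlal'] at t1
        rcases hAt hA H z x (xinv e0) e _ _ cx (by rw [car_inv]; exact ce0) ce w1 w2
          (D.bd.red _) (D.bd.red _) t1.2 t2.1 with ⟨f1, f2, f3, f4⟩ | ⟨f1, -⟩
        · -- foot moving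
          exfalso
          have he0 : e0 = xinv x := by
            rw [f1]; exact ((XX hg hgeo hι).inv_inv e0).symm
          have hw5 : w = al' ++ xinv x :: e :: (m ++ actE z (xinv e) :: actE z x :: be') := by
            rw [hw3, he0, hxb]
          obtain ⟨f, g1, g2, g3, g4, g5⟩ := hFt M hSC z x e al' m be' w a W I hw5 hcl D
            (by rw [← hlal']; exact f2)
            (by
              rw [show al'.length + 2 + m.length + 1 = al.length + (k + s.length + k) by omega]
              exact f3)
          rw [hal', he0] at h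
          obtain ⟨u, j1, j2⟩ := h.al.split
          have ju : u = xsrc f := by
            rw [g1]
            exact j2.1.1.symm
          subst ju
          have hbe2 := h.be
          rw [hbe', hxb] at hbe2
          have j3 : SideP hg hgeo hι (z • H) (z • xsrc f) n be' := by
            refine ⟨?_, fun e he => hbe2.2 e (by simp [he])⟩
            have := hbe2.1.2
            change (XX hg hgeo hι).IsP (xsrc (xinv (actE z x))) be' n at this
            rw [xinv_act, xsrc_act] at this
            rw [g1]
            exact this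
          have hγ2 := hγ
          rw [hγ'] at hγ2
          have j4 : (XX hg hgeo hι).IsP (xsrc f) (f :: γ') y := by
            refine ⟨rfl, ?_⟩
            have := hγ2.2
            change (XX hg hgeo hι).IsP (xsrc (xinv f)) γ' y
            rw [g2]
            exact this
          have j5 := hm (xsrc f) (f :: γ') s al' be' ⟨j1, j3, ⟨by
            rw [← hlen, hγ']; simp, ⟨y, hy, j4, hs⟩, h.lob.rot⟩⟩
          rw [hwd, ← hw] at j5
          have := j5.1
          omega
        · unfold vl
          omega
      omega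

end Pool.Agent.ABA.B.H94
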