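import Pool.Agent.Helper94_ABB.Q1
import Pool.Agent.Helper17_ABA.Lobe3
import Pool.Agent.Helper17_ABA.ModsAll
import Pool.Agent.Helper70_ABA.LobeInt

/-! # Q1 without hypotheses (MP_d857f1_al, part B) -/

set_option autoImplicit false

namespace Pool.Agent.ABA.B.H94

open Pool.Agent.ABA Pool.Agent.ABA.B Pool.Agent.ABA.B.H17 Pool.Agent.ABA.B.H50

/-- **Q1** -/
theorem q1_ {G : Type} [Group G] {A B : Subgroup G} {g : G} {hg : ¬ IsABA A B g}
    {hgeo : Geo A B} {hι : Function.Injective (Pι A B g)}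
    (hA : ∀ x ∈ A, ∀ y ∈ A, x * y = y * x) : Q1Stmt hg hgeo hι :=
  q1 hA modsAll (scAll hg hgeo hι)
    (fix_stmt (hg := hg) (hgeo := hgeo) (hι := hι) modsAll (scAll hg hgeo hι) hA)
    (stab_stmt (hg := hg) (hgeo := hgeo) (hι := hι) modsAll (scAll hg hgeo hι) hA)
    exists_DW flat_ H70L.intL_ intF_ attach_ H70L.foot_

end Pool.Agent.ABA.B.H94
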