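import Pool.Agent.Helper94_ABB.Asm
import Pool.Agent.Helper63_ABB.CyF
import Pool.Agent.Helper88_ABA.E6K0

/-! # Case Y and E6 with a common vertex, in the form of the assembly (MP_d857f1_al, part B) -/

set_option autoImplicit false

namespace Pool.Agent.ABA.B.H94

open Pool.Agent.ABA Pool.Agent.ABA.B Pool.Agent.ABA.B.H17

theorem yall : YAll := by
  intro G _ A B g hg hgeo hι hA K L hK hc hL T m h1 h2 h3
  have hSC : (XX hg hgeo hι).SC := px_sc hg hgeo hι rev_all close_all H63.ins
  refine H63.cy hA mods hSC hc hL ?_ ⟨T, m, h1, h2, h3⟩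
  intro T' hT'
  rcases hK with rfl | rfl
  · exact Or.inl hT'
  · exact Or.inr hT'

/-- **the theorem** from the case V and E6 without common vertices -/
theorem final2 (hV : VAll) (hE1 : FarAll) :
    ∃ (G : Type) (_ : Group G) (A B : Subgroup G), IsCyclic A ∧ IsCyclic B ∧
      (∀ g : G, ∃ x ∈ A, ∃ y ∈ B, ∃ z ∈ A, g = x * y * z) ∧ ¬ Group.IsSolvable G :=
  final yall hV H88.e6k0 hE1

end Pool.Agent.ABA.B.H94
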