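import Pool.Agent.Helper94_ABB.ModsAll
import Pool.Agent.Helper70_ABA.Trip
import Pool.Agent.Helper89_ABA.Hol5
import Pool.Agent.Helper89_ABA.Final2
import Pool.Agent.Helper88_ABA.E6K0Defs
import Pool.Agent.Helper83_ABA.PXSC
import Pool.Agent.Helper17_ABA.PT2

/-!
# Assembly of the P-level theorem (MP_d857f1_al, part B, section 10)

Inputs: no triples in the classes Rt and Lt (cases Y and V), E6 with and without a common vertex.
-/

set_option autoImplicit false

namespace Pool.Agent.ABA.B.H94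

open Knd Pool.Agent.ABA Pool.Agent.ABA.B Pool.Agent.ABA.B.TG Pool.Agent.ABA.B.H17
  Pool.Agent.ABA.B.H89

section

variable {G : Type} [Group G] {A B : Subgroup G} {g : G}

section

variable (hg : ¬ IsABA A B g) (hgeo : Geo A B) (hι : Function.Injective (Pι A B g))

/-- case Y is impossible -/
def YStmt : Prop := ∀ (K : Trp A B g → Prop) (L : ℕ), (K = Trp.Rt ∨ K = Trp.Lt hg hgeo hι) →
  Trp.Cls K → Trp.Low hg hgeo hι K L → ∀ T m, K T → T.LY hg hgeo hι m = L →
    (∀ T', K T' → L < T'.LV hg hgeo hι) → False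

/-- case V is impossible -/
def VStmt : Prop := ∀ (K : Trp A B g → Prop) (L : ℕ), (K = Trp.Rt ∨ K = Trp.Lt hg hgeo hι) →
  Trp.Cls K → Trp.Low hg hgeo hι K L → ∀ T, K T → T.LV hg hgeo hι = L → False

end

variable {hg : ¬ IsABA A B g} {hgeo : Geo A B} {hι : Function.Injective (Pι A B g)}

/-- no triples -/
theorem no_trp (M : Mods) (hSC : (XX hg hgeo hι).SC) (hA : ∀ x ∈ A, ∀ y ∈ A, x * y = y * x)
    (hY : YStmt hg hgeo hι) (hV : VStmt hg hgeo hι) :
    (∀ T : Trp A B g, ¬ T.Rt) ∧ ∀ T : Trp A B g, ¬ T.Lt hg hgeo hι := by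
  have hS : StabStmt A B g := stab_stmt (hg := hg) (hgeo := hgeo) (hι := hι) M hSC hA
  obtain ⟨c1, -, c3⟩ := cls_stmt (hg := hg) (hgeo := hgeo) (hι := hι) hS
  have key : ∀ K : Trp A B g → Prop, (K = Trp.Rt ∨ K = Trp.Lt hg hgeo hι) → Trp.Cls K →
      ∀ T, ¬ K T := by
    intro K hK hc T hT
    obtain ⟨L, hL, ⟨T', m, h1, h2, h3⟩ | ⟨T', h1, h2⟩⟩ :=
      min_stmt (hg := hg) (hgeo := hgeo) (hι := hι) K hc ⟨T, hT⟩
    · exact hY K L hK hc hL T' m h1 h2 h3
    · exact hV K L hK hc hL T' h1 h2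
  exact ⟨key _ (Or.inl rfl) c1, key _ (Or.inr rfl) c3⟩

/-- `PA` is abelian -/
theorem PA_comm (hA : ∀ x ∈ A, ∀ y ∈ A, x * y = y * x) {p q : PP A B g} (hp : p ∈ PA A B g)
    (hq : q ∈ PA A B g) : p * q = q * p := by
  obtain ⟨a, ha, i, j, rfl⟩ := mem_PA.1 hp
  obtain ⟨a', ha', i', j', rfl⟩ := mem_PA.1 hq
  have huv : Commute (Pu A B g) (Pv A B g) := P_uv A B g
  have h1 := comm_ι_uv (B := B) (g := g) ha' i j
  have h2 := comm_ι_uv (B := B) (g := g) ha i' j'
  have h3 : Commute (Pι A B g a) (Pι A B g a') := by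
    change Pι A B g a * Pι A B g a' = Pι A B g a' * Pι A B g a
    rw [← map_mul, hA a ha a' ha', map_mul]
  have h4 : Commute (Pu A B g ^ i * Pv A B g ^ j) (Pu A B g ^ i' * Pv A B g ^ j') := by
    have e1 : Commute (Pu A B g ^ i) (Pu A B g ^ i') := (Commute.refl _).zpow_zpow _ _
    have e2 : Commute (Pu A B g ^ i) (Pv A B g ^ j') := huv.zpow_zpow _ _
    have e3 : Commute (Pv A B g ^ j) (Pu A B g ^ i') := huv.symm.zpow_zpow _ _
    have e4 : Commute (Pv A B g ^ j) (Pv A B g ^ j') := (Commute.refl _).zpow_zpow _ _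
    exact (e1.mul_right e2).mul_left (e3.mul_right e4)
  have h5 : Commute (Pι A B g a * (Pu A B g ^ i * Pv A B g ^ j))
      (Pι A B g a' * (Pu A B g ^ i' * Pv A B g ^ j')) :=
    (h3.mul_right h2).mul_left (h1.symm.mul_right h4)
  exact h5.eq

/-- rotations of a plane group -/
theorem rot_PA {x h : PP A B g} (hx : x ∈ PA A B g) (hr : Rot (h * x * h⁻¹)) :
    ∃ a ∈ A, x = Pι A B g a := by
  rw [Rot_conj] at hr
  exact PA_deg_zero hx hr.1 hr.2

/-- **R3 for P** -/
theorem field_r3 (M : Mods) (hSC : (XX hg hgeo hι).SC) (hA : ∀ x ∈ A, ∀ y ∈ A, x * y = y * x)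
    (hR : ∀ T : Trp A B g, ¬ T.Rt) : R3 (PA A B g) := by
  intro h1 h2 h3 x1 x2 x3 m1 m2 m3 n1 n2 n3 d12 d23 d13 hprod
  have hS : StabStmt A B g := stab_stmt (hg := hg) (hgeo := hgeo) (hι := hι) M hSC hA
  have e12 : (plane h1 : Car A B g) ≠ plane h2 := fun e => d12 (plane_eq.1 e)
  have e23 : (plane h2 : Car A B g) ≠ plane h3 := fun e => d23 (plane_eq.1 e)
  have e13 : (plane h1 : Car A B g) ≠ plane h3 := fun e => d13 (plane_eq.1 e)
  have st : ∀ h x : PP A B g, x ∈ PA A B g → (h * x * h⁻¹) • (plane h : Car A B g) = plane h := by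
    intro h x hx
    rw [stab_plane]
    have : h⁻¹ * (h * x * h⁻¹) * h = x := by group
    rw [this]; exact hx
  by_cases hall : Rot (h1 * x1 * h1⁻¹) ∧ Rot (h2 * x2 * h2⁻¹) ∧ Rot (h3 * x3 * h3⁻¹)
  · -- three rotations
    obtain ⟨r1, r2, r3⟩ := hall
    have rt : ∀ h x : PP A B g, x ∈ PA A B g → x ≠ 1 → Rot (h * x * h⁻¹) →
        Rtn A B g (h * x * h⁻¹) := by
      intro h x hx hx1 hr
      obtain ⟨a, ha, rfl⟩ := rot_PA hx hr
      exact ⟨h, a, ha, by rintro rfl; exact hx1 (map_one _), rfl⟩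
    refine r3_rot (hg := hg) (hgeo := hgeo) (hι := hι) M hSC hA (rt _ _ m1 n1 r1) (rt _ _ m2 n2 r2)
      (rt _ _ m3 n3 r3) ?_ hprod
    rintro q ⟨k1, k2, -⟩
    rw [← stab_plane] at k1 k2
    have f1 := hS _ _ _ (conj_ne_one n1) (st h1 x1 m1) k1
    have f2 := hS _ _ _ (conj_ne_one n2) (st h2 x2 m2) k2
    exact e12 (f1.trans f2.symm)
  · -- at least two translations
    refine hR ⟨h1 * x1 * h1⁻¹, h2 * x2 * h2⁻¹, h3 * x3 * h3⁻¹, plane h1, plane h2, plane h3⟩
      ⟨⟨hprod, st _ _ m1, st _ _ m2, st _ _ m3, conj_ne_one n1, conj_ne_one n2, conj_ne_one n3,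
        e12, e23, e13⟩, ⟨h1, rfl⟩, ⟨h2, rfl⟩, ⟨h3, rfl⟩, ?_⟩
    change (¬ Rot (h1 * x1 * h1⁻¹) ∧ ¬ Rot (h2 * x2 * h2⁻¹)) ∨
      (¬ Rot (h2 * x2 * h2⁻¹) ∧ ¬ Rot (h3 * x3 * h3⁻¹)) ∨
      (¬ Rot (h1 * x1 * h1⁻¹) ∧ ¬ Rot (h3 * x3 * h3⁻¹))
    have s1 : ∀ d e : ℤ, dg A B g d e (h1 * x1 * h1⁻¹) + dg A B g d e (h2 * x2 * h2⁻¹) +
        dg A B g d e (h3 * x3 * h3⁻¹) = 0 := by
      intro d e
      rw [← dg_mul, ← dg_mul, hprod, dg_one]
    have a1 := s1 1 0
    have a2 := s1 0 1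
    by_contra hcon
    apply hall
    unfold Rot at *
    omega

/-- **EL for P** -/
theorem field_el (M : Mods) (hSC : (XX hg hgeo hι).SC) (hA : ∀ x ∈ A, ∀ y ∈ A, x * y = y * x)
    (hL : ∀ T : Trp A B g, ¬ T.Lt hg hgeo hι) : ∀ k : PP A B g, ∀ s ∈ PA A B g, ∀ t ∈ PB A B g,
      s ≠ 1 → t ≠ 1 → k * s * k⁻¹ * s ≠ t := by
  intro k s hs t ht hs1 ht1 he
  have hab := field_ab' (hg := hg) (hgeo := hgeo) (hι := hι) M hSC hA
  have hfix := fix_stmt (hg := hg) (hgeo := hgeo) (hι := hι) M hSC hA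
  obtain ⟨a, ha, i, j, hsa⟩ := mem_PA.1 hs
  obtain ⟨b, hb, m, htb⟩ := mem_PB.1 ht
  have ds : ∀ d e : ℤ, dg A B g d e s = i * d + j * e := by
    intro d e
    rw [hsa, dg_mul, dg_mul, dg_zpow, dg_zpow, dg_u, dg_v, dg_ι]; ring
  have dt : ∀ d e : ℤ, dg A B g d e t = m * (-d - e) := by
    intro d e
    rw [htb, dg_mul, dg_zpow, dg_c, dg_ι]; ring
  have dd : ∀ d e : ℤ, 2 * dg A B g d e s = dg A B g d e t := by
    intro d e
    rw [← he, dg_mul, dg_conj]; ring
  have q1 := dd 1 0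
  have q2 := dd 0 1
  rw [ds, dt] at q1 q2
  have hij : i = j := by linarith
  have hm : m = -2 * i := by linarith
  subst hij
  by_cases hi : i = 0
  · -- rotations
    subst hi
    have hm0 : m = 0 := by rw [hm]; ring
    subst hm0
    simp only [zpow_zero, mul_one] at hsa htb
    have ha1 : a ≠ 1 := by rintro rfl; exact hs1 (by rw [hsa, map_one])
    have hb1 : b ≠ 1 := by rintro rfl; exact ht1 (by rw [htb, map_one])
    -- the vertex 1 lies on the plane of k
    have hz : (k * s * k⁻¹) • (plane k : Car A B g) = plane k := by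
      rw [stab_plane]
      have : k⁻¹ * (k * s * k⁻¹) * k = s := by group
      rw [this]; exact hs
    have hrot : Rot (k * s * k⁻¹) := by
      rw [Rot_conj]
      unfold Rot
      rw [ds, ds]
      constructor <;> ring
    have hv : (k * s * k⁻¹) • (vx 1 : XV A B g) = vx 1 := by
      have e1 : k * s * k⁻¹ = Pι A B g (b * a⁻¹) := by
        rw [map_mul, map_inv, ← hsa, ← htb, ← he]; group
      rw [e1, smul_vx, mul_one]
      exact (vx_eq.2 ⟨b * a⁻¹, by rw [one_mul]⟩).symm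
    have hon := ((hfix _ _ (conj_ne_one hs1) hz).1 hrot _).1 hv
    obtain ⟨x, hx, hvx⟩ := On_plane.1 hon
    obtain ⟨h, hh⟩ := vx_eq.1 hvx
    rw [one_mul] at hh
    -- k x = ι h
    have hk : k = Pι A B g h * x⁻¹ := by rw [← hh]; group
    have hxs : x⁻¹ * s * x = s := by
      have := PA_comm hA hs hx
      rw [mul_assoc, this]; group
    have hG : Pι A B g (h * a * h⁻¹ * a) = Pι A B g b := by
      rw [← htb, ← he, map_mul, map_mul, map_mul, map_inv, ← hsa]
      congr 1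
      have : k * s * k⁻¹ = Pι A B g h * (x⁻¹ * s * x) * (Pι A B g h)⁻¹ := by rw [hk]; group
      rw [this, hxs]
    exact hgeo.el h a ha b hb ha1 hb1 (hι hG)
  · -- translations
    have hkP : (plane k : Car A B g) ≠ plane 1 := by
      intro h
      have hk : k ∈ PA A B g := by
        have := plane_eq.1 h
        rw [mul_one] at this
        exact (Subgroup.inv_mem_iff _).1 this
      have h1 : k * s * k⁻¹ * s ∈ PA A B g :=
        Subgroup.mul_mem _ (Subgroup.mul_mem _ (Subgroup.mul_mem _ hk hs)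
          (Subgroup.inv_mem _ hk)) hs
      rw [he] at h1
      exact ht1 (hab 1 t h1 (by simpa using ht))
    have nrs : ¬ Rot s := by
      unfold Rot
      rw [ds]
      intro h
      apply hi
      have := h.1
      linarith
    have nrt : ¬ Rot t⁻¹ := by
      rw [Rot_inv]
      unfold Rot
      rw [dt]
      intro h
      apply hi
      have := h.1
      linarith
    obtain ⟨l1, l2⟩ := len_stmt (hg := hg) (hgeo := hgeo) (hι := hι)
    have habs : 2 ≤ |2 * i| := by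
      rw [abs_mul]
      have := Int.one_le_abs hi
      have h2 : |(2 : ℤ)| = 2 := rfl
      rw [h2]; linarith
    have dss : dg A B g 1 1 s = 2 * i := by rw [ds]; ring
    have dtt : dg A B g 1 0 t⁻¹ = -(2 * i) := by rw [dg_inv, dt, hm]; ring
    have nt : ∀ (c : Car A B g) (z : PP A B g), IsPl c → dg A B g 1 1 z = 2 * i →
        NTwo hg hgeo hι c z := by
      intro c z hc hz y u hu
      have := l1 c z y u hu hc
      rw [hz] at this
      have h2 := habs.trans this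
      exact_mod_cast h2
    refine hL ⟨k * s * k⁻¹, s, t⁻¹, plane k, plane 1, line 1⟩
      ⟨⟨?_, ?_, ?_, ?_, conj_ne_one hs1, hs1, inv_ne_one.2 ht1, hkP, plane_ne_line, plane_ne_line⟩,
        Or.inr (Or.inr ⟨⟨k, rfl⟩, ⟨1, rfl⟩, ⟨1, rfl⟩⟩), ?_, nrs, nrt, ?_, ?_, ?_⟩
    · change k * s * k⁻¹ * s * t⁻¹ = 1
      rw [he, mul_inv_cancel]
    · change (k * s * k⁻¹) • (plane k : Car A B g) = plane k
      rw [stab_plane]
      have : k⁻¹ * (k * s * k⁻¹) * k = s := by group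
      rw [this]; exact hs
    · change s • (plane 1 : Car A B g) = plane 1
      rw [stab_plane]
      simpa using hs
    · change t⁻¹ • (line 1 : Car A B g) = line 1
      rw [stab_line]
      simpa using ht
    · change ¬ Rot (k * s * k⁻¹)
      rw [Rot_conj]; exact nrs
    · exact nt _ _ ⟨k, rfl⟩ (by rw [dg_conj, dss])
    · exact nt _ _ ⟨1, rfl⟩ dss
    · intro y u hu
      have := l2 _ _ y u hu
      change |dg A B g 1 0 t⁻¹| ≤ _ at this
      rw [dtt, abs_neg] at this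
      have h2 := habs.trans this
      exact_mod_cast h2

/-- the part of `PData` without E6 -/
theorem pdata (M : Mods) (hSC : (XX hg hgeo hι).SC) (hA : ∀ x ∈ A, ∀ y ∈ A, x * y = y * x)
    (hY : YStmt hg hgeo hι) (hV : VStmt hg hgeo hι)
    (hE : ∀ h : PP A B g, ¬ IsABA (PA A B g) (PB A B g) h → E6 (PA A B g) h) :
    AM.PData A B g := by
  obtain ⟨nR, nL⟩ := no_trp (hg := hg) (hgeo := hgeo) (hι := hι) M hSC hA hY hV
  have hab := field_ab' (hg := hg) (hgeo := hgeo) (hι := hι) M hSC hA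
  have hab1 : ∀ x ∈ PA A B g, x ∈ PB A B g → x = 1 := fun x hx hx' =>
    hab 1 x hx (by simpa using hx')
  refine ⟨?_, ?_, ⟨hab1, field_aa (hg := hg) (hgeo := hgeo) (hι := hι) M hSC hA,
    field_bb (hg := hg) (hgeo := hgeo) (hι := hι) M hSC hA, hab,
    field_e1 (hg := hg) (hgeo := hgeo) (hι := hι) hA M hSC hab1,
    field_r3 (hg := hg) (hgeo := hgeo) (hι := hι) M hSC hA nR,
    field_t2 (hg := hg) (hgeo := hgeo) (hι := hι) M hSC hA, hE,
    field_el (hg := hg) (hgeo := hgeo) (hι := hι) M hSC hA nL⟩⟩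
  · intro a ha i j h
    have d1 : ∀ d e : ℤ, i * d + j * e = 0 := by
      intro d e
      have := congrArg (dg A B g d e) h
      rw [dg_mul, dg_mul, dg_zpow, dg_zpow, dg_u, dg_v, dg_ι, dg_one] at this
      linarith
    have hi : i = 0 := by have := d1 1 0; linarith
    have hj : j = 0 := by have := d1 0 1; linarith
    subst hi hj
    refine ⟨?_, rfl, rfl⟩
    simp only [zpow_zero, mul_one] at h
    exact hι (by rw [h, map_one])
  · intro b hb i h
    have d1 : i * (-1 - 0) = 0 := by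
      have := congrArg (dg A B g 1 0) h
      rw [dg_mul, dg_zpow, dg_c, dg_ι, dg_one] at this
      linarith
    have hi : i = 0 := by linarith
    subst hi
    refine ⟨?_, rfl⟩
    simp only [zpow_zero, mul_one] at h
    exact hι (by rw [h, map_one])

end

/-! ## the final statements -/

/-- case Y, for all groups -/
def YAll : Prop := ∀ (G : Type) [Group G] (A B : Subgroup G) (g : G) (hg : ¬ IsABA A B g)
  (hgeo : Geo A B) (hι : Function.Injective (Pι A B g)), (∀ x ∈ A, ∀ y ∈ A, x * y = y * x) →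
  YStmt hg hgeo hι

/-- case V, for all groups -/
def VAll : Prop := ∀ (G : Type) [Group G] (A B : Subgroup G) (g : G) (hg : ¬ IsABA A B g)
  (hgeo : Geo A B) (hι : Function.Injective (Pι A B g)), (∀ x ∈ A, ∀ y ∈ A, x * y = y * x) →
  VStmt hg hgeo hι

/-- E6 without a common vertex, for all groups -/
def FarAll : Prop := ∀ (G : Type) [Group G] (A B : Subgroup G) (g : G) (_ : ¬ IsABA A B g)
  (_ : Geo A B) (_ : Function.Injective (Pι A B g)), (∀ x ∈ A, ∀ y ∈ A, x * y = y * x) →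
  ∀ h : PP A B g, ¬ IsABA (PA A B g) (PB A B g) h →
    (¬ ∃ v : XV A B g, On (plane 1) v ∧ On (plane h) v) → E6 (PA A B g) h

/-- **the P-level theorem** from the cases Y and V and from E6 -/
theorem pcore (hY : YAll) (hV : VAll) (hE0 : H88.E6K0Stmt) (hE1 : FarAll) : Asm.PCore := by
  intro G _ A B g hA _ hgeo hg hι
  have M := mods
  have hSC : (XX hg hgeo hι).SC := px_sc hg hgeo hι rev_all close_all H63.ins
  refine pdata (hg := hg) (hgeo := hgeo) (hι := hι) M hSC hA (hY G A B g hg hgeo hι hA)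
    (hV G A B g hg hgeo hι hA) ?_
  intro h hh
  by_cases hv : ∃ v : XV A B g, On (plane 1) v ∧ On (plane h) v
  · exact hE0 hg hgeo hι hA M hSC h hh hv
  · exact hE1 G A B g hg hgeo hι hA h hh hv

/-- **the theorem** from the cases Y and V and from E6 -/
theorem final (hY : YAll) (hV : VAll) (hE0 : H88.E6K0Stmt) (hE1 : FarAll) :
    ∃ (G : Type) (_ : Group G) (A B : Subgroup G), IsCyclic A ∧ IsCyclic B ∧
      (∀ g : G, ∃ x ∈ A, ∃ y ∈ B, ∃ z ∈ A, g = x * y * z) ∧ ¬ Group.IsSolvable G :=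
  Asm.main_of_PCore (pcore hY hV hE0 hE1)

end Pool.Agent.ABA.B.H94
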