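import Pool.Agent.Helper17_ABA.Bdy
import Pool.Agent.Helper63_ABA.Add
import Pool.Agent.Helper63_ABA.Ins
import Pool.Agent.Helper76_ABA.Area
import Pool.Agent.Helper76_ABA.Nsb
import Pool.Agent.Helper56_ABA.Close
import Pool.Agent.Helper56_ABA.Mir
import Pool.Agent.Helper81_ABA.Fan
import Pool.Agent.Helper18_ABA.Glue
import Pool.Agent.Helper18_ABA.RotCol
import Pool.Agent.Helper10_ABA.Nsx
import Pool.Agent.Helper31_ABA.Pinch
import Pool.Agent.Helper31_ABA.Gb
import Pool.Agent.Helper19_ABA.Rev

/-! # All library modules about discs (MP_d857f1_al, part B) -/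

set_option autoImplicit false

namespace Pool.Agent.ABA.B.H94

theorem close_all : CloseStmt :=
  H56.close H63.ins (H18.rot H63.ins) (H18.col H63.ins) (H18.glue H63.ins)
    (H81.fan H63.ins (H63.add H63.ins) (H18.col H63.ins))

theorem rev_all : RevStmt := H19.rev (H18.col H63.ins)

theorem mods : H17.Mods := by
  have hI : InsStmt := H63.ins
  have hAdd : AddStmt := H63.add hI
  have hR : RotStmt := H18.rot hI
  have hC : ColStmt := H18.col hI
  have hV : RevStmt := H19.rev hC
  have hG : GlueStmt := H18.glue hI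
  have hF : FanStmt := H81.fan hI hAdd hC
  have hCl : CloseStmt := H56.close hI hR hC hG hF
  have hA : AreaStmt := H76.area hI hAdd hR hC hV hCl
  have hN : NsBasicStmt := H76.nsb hI hR hC
  exact ⟨hI, hR, hA, hN, H31.gb, H10.nsx hI hR hA hN, H56.mir hI hR hC hA hN, H31.pinch hA⟩

end Pool.Agent.ABA.B.H94
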