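import Pool.Agent.Helper17_ABA.LobeDefs

/-!
# Q1: polygons with one lobe and two hub sides (MP_d857f1_al, part B, section 5)

`c ≠ H`, `z c = c`, `n` in `H` and in `z H`; word `al ++ lobe z γ s ++ be`, `al` from `n` to `p` in
`H`, the lobe at `p`, `be` from `z p` to `n` in `z H`. Minimal polygons are pinch free.
-/

set_option autoImplicit false
set_option linter.unusedSimpArgs false
set_option linter.unusedVariables false

namespace Pool.Agent.ABA.B.H94

open Knd Pool.Agent.ABA Pool.Agent.ABA.B Pool.Agent.ABA.B.TG Pool.Agent.ABA.B.H17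
  Pool.Agent.ABA.B.H49 Pool.Agent.ABA.B.H50 Pool.Agent.ABA.B.H89

variable {G : Type} [Group G] {A B : Subgroup G} {g : G}

section

variable (hg : ¬ IsABA A B g) (hgeo : Geo A B) (hι : Function.Injective (Pι A B g))

/-- polygon with one lobe and two hub sides -/
structure QP (c H : Car A B g) (z : PP A B g) (n : XV A B g) (k : ℕ) (p : XV A B g)
    (γ s al be : List (XE A B g)) : Prop where
  al : SideP hg hgeo hι H n p al
  be : SideP hg hgeo hι (z • H) (z • p) n be
  lob : IsLobe hg hgeo hι c z p k γ s

/-- minimality -/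
def QMin (c H : Car A B g) (z : PP A B g) (n : XV A B g) (k : ℕ)
    (γ s al be : List (XE A B g)) : Prop :=
  ∀ p' γ' s' al' be', QP hg hgeo hι c H z n k p' γ' s' al' be' →
    (XX hg hgeo hι).ar (al ++ lobe hg hgeo hι z γ s ++ be) ≤
      (XX hg hgeo hι).ar (al' ++ lobe hg hgeo hι z γ' s' ++ be') ∧
    ((XX hg hgeo hι).ar (al' ++ lobe hg hgeo hι z γ' s' ++ be') ≤
      (XX hg hgeo hι).ar (al ++ lobe hg hgeo hι z γ s ++ be) →
      al.length + be.length + s.length ≤ al'.length + be'.length + s'.length)

end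

variable {hg : ¬ IsABA A B g} {hgeo : Geo A B} {hι : Function.Injective (Pι A B g)}

/-- splitting the way back along a slit -/
theorem back_split {z : PP A B g} {γ g₁ g₂ : List (XE A B g)}
    (h : ((XX hg hgeo hι).rv γ).map (actE z) = g₁ ++ g₂) :
    ∃ γ₁ γ₂, γ = γ₁ ++ γ₂ ∧ g₁ = ((XX hg hgeo hι).rv γ₂).map (actE z) ∧
      g₂ = ((XX hg hgeo hι).rv γ₁).map (actE z) := by
  obtain ⟨a, b, h1, h2, h3⟩ := List.map_eq_append_iff.1 h
  refine ⟨(XX hg hgeo hι).rv b, (XX hg hgeo hι).rv a, ?_, ?_, ?_⟩
  · rw [← rv_append, ← h1, rv_rv]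
  · rw [rv_rv, h2]
  · rw [rv_rv, h3]

/-- location of a position -/
inductive Loc (hg : ¬ IsABA A B g) (hgeo : Geo A B) (hι : Function.Injective (Pι A B g))
    (c H : Car A B g) (z : PP A B g) (n p y : XV A B g) (γ s al be : List (XE A B g)) :
    List (XE A B g) → List (XE A B g) → XV A B g → Prop
  | inA {l r : List (XE A B g)} {x : XV A B g} (al₂ : List (XE A B g)) : al = l ++ al₂ →
      r = al₂ ++ lobe hg hgeo hι z γ s ++ be →
      SideP hg hgeo hι H n x l → SideP hg hgeo hι H x p al₂ → Loc hg hgeo hι c H z n p y γ s al be l r x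
  | inB {l r : List (XE A B g)} {x : XV A B g} (γ₁ γ₂ : List (XE A B g)) : γ = γ₁ ++ γ₂ →
      γ₁ ≠ [] → γ₂ ≠ [] → l = al ++ γ₁ →
      (XX hg hgeo hι).IsP p γ₁ x → (XX hg hgeo hι).IsP x γ₂ y →
      Loc hg hgeo hι c H z n p y γ s al be l r x
  | inC {l r : List (XE A B g)} {x : XV A B g} (s₁ s₂ : List (XE A B g)) : s = s₁ ++ s₂ →
      l = al ++ γ ++ s₁ → r = s₂ ++ (((XX hg hgeo hι).rv γ).map (actE z) ++ be) →
      SideP hg hgeo hι c y x s₁ → SideP hg hgeo hι c x (z • y) s₂ →
      Loc hg hgeo hι c H z n p y γ s al be l r x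
  | inD {l r : List (XE A B g)} {x : XV A B g} (γ₁ γ₂ : List (XE A B g)) (x' : XV A B g) :
      γ = γ₁ ++ γ₂ → γ₁ ≠ [] → γ₂ ≠ [] →
      l = al ++ γ ++ s ++ ((XX hg hgeo hι).rv γ₂).map (actE z) → x = z • x' →
      (XX hg hgeo hι).IsP p γ₁ x' → (XX hg hgeo hι).IsP x' γ₂ y →
      Loc hg hgeo hι c H z n p y γ s al be l r x
  | inE {l r : List (XE A B g)} {x : XV A B g} (be₁ : List (XE A B g)) : be = be₁ ++ r →
      l = al ++ lobe hg hgeo hι z γ s ++ be₁ → SideP hg hgeo hι (z • H) (z • p) x be₁ →
      SideP hg hgeo hι (z • H) x n r → Loc hg hgeo hι c H z n p y γ s al be l r x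

theorem loc {c H : Car A B g} {z : PP A B g} {n p y x : XV A B g} {γ s al be l r : List (XE A B g)}
    (hal : SideP hg hgeo hι H n p al) (hbe : SideP hg hgeo hι (z • H) (z • p) n be)
    (hγ : (XX hg hgeo hι).IsP p γ y) (hs : SideP hg hgeo hι c y (z • y) s)
    (hw : al ++ lobe hg hgeo hι z γ s ++ be = l ++ r) (hl : (XX hg hgeo hι).IsP n l x) :
    Loc hg hgeo hι c H z n p y γ s al be l r x := by
  have hw' : al ++ (γ ++ (s ++ (((XX hg hgeo hι).rv γ).map (actE z) ++ be))) = l ++ r := by
    rw [← hw]; unfold lobe; simp only [List.append_assoc]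
  have hpg : (XX hg hgeo hι).IsP (z • y) (((XX hg hgeo hι).rv γ).map (actE z)) (z • p) :=
    IsP_act z hγ.rv
  have hn1 : (XX hg hgeo hι).IsP n (al ++ γ) y := isP_append.2 ⟨p, hal.1, hγ⟩
  have hn2 : (XX hg hgeo hι).IsP n (al ++ γ ++ s) (z • y) := isP_append.2 ⟨y, hn1, hs.1⟩
  have hn3 : (XX hg hgeo hι).IsP n (al ++ lobe hg hgeo hι z γ s) (z • p) := by
    unfold lobe
    rw [← List.append_assoc, ← List.append_assoc]
    exact isP_append.2 ⟨z • y, hn2, hpg⟩
  have caseA : ∀ al₂, al = l ++ al₂ → Loc hg hgeo hι c H z n p y γ s al be l r x := by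
    intro al₂ e1
    rw [e1] at hal
    obtain ⟨x', k1, k2⟩ := hal.split
    have k3 : x' = x := k1.1.eq hl
    subst k3
    refine Loc.inA al₂ e1 ?_ k1 k2
    rw [e1] at hw
    simp only [List.append_assoc] at hw ⊢
    exact (List.append_cancel_left hw).symm
  have caseC : ∀ s₁ s₂, s = s₁ ++ s₂ → l = al ++ γ ++ s₁ →
      Loc hg hgeo hι c H z n p y γ s al be l r x := by
    intro s₁ s₂ e1 e2
    rw [e1] at hs
    obtain ⟨x', k1, k2⟩ := hs.split
    have k3 : x' = x := by
      rw [e2] at hl
      exact (isP_append.2 ⟨y, hn1, k1.1⟩ : (XX hg hgeo hι).IsP n (al ++ γ ++ s₁) x').eq hl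
    subst k3
    refine Loc.inC s₁ s₂ e1 e2 ?_ k1 k2
    rw [e1, e2] at hw'
    simp only [List.append_assoc] at hw' ⊢
    exact (List.append_cancel_left (List.append_cancel_left (List.append_cancel_left hw'))).symm
  have caseE : ∀ be₁, be = be₁ ++ r → l = al ++ lobe hg hgeo hι z γ s ++ be₁ →
      Loc hg hgeo hι c H z n p y γ s al be l r x := by
    intro be₁ e1 e2
    rw [e1] at hbe
    obtain ⟨x', k1, k2⟩ := hbe.split
    have k3 : x' = x := by
      rw [e2] at hl
      exact (isP_append.2 ⟨z • p, hn3, k1.1⟩ :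
        (XX hg hgeo hι).IsP n (al ++ lobe hg hgeo hι z γ s ++ be₁) x').eq hl
    subst k3
    exact Loc.inE be₁ e1 e2 k1 k2
  rcases cut2 hw' with ⟨q, e1, e2⟩ | ⟨l₂, e1, e2⟩
  · exact caseA q e1
  · by_cases hl2 : l₂ = []
    · exact caseA [] (by rw [e2, hl2]; simp)
    rcases cut2 e1 with ⟨q, e3, e4⟩ | ⟨l₃, e3, e4⟩
    · by_cases hq : q = []
      · exact caseC [] s (by simp) (by rw [e2, e3, hq]; simp)
      · rw [e3] at hγ
        obtain ⟨x', k1, k2⟩ := isP_append.1 hγ
        have k3 : x' = x := by
          rw [e2] at hl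
          exact (isP_append.2 ⟨p, hal.1, k1⟩ : (XX hg hgeo hι).IsP n (al ++ l₂) x').eq hl
        subst k3
        exact Loc.inB l₂ q e3 hl2 hq e2 k1 k2
    · rcases cut2 e3 with ⟨q, e5, e6⟩ | ⟨l₄, e5, e6⟩
      · exact caseC l₃ q e5 (by rw [e2, e4]; simp)
      · by_cases hl4 : l₄ = []
        · exact caseC s [] (by simp) (by rw [e2, e4, e6, hl4]; simp)
        rcases cut2 e5 with ⟨q, e7, e8⟩ | ⟨l₅, e7, e8⟩
        · by_cases hq : q = []
          · refine caseE [] (by rw [e8, hq]; simp) ?_
            unfold lobe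
            rw [e2, e4, e6, e7, hq]
            simp
          · obtain ⟨γ₁, γ₂, f1, f2, f3⟩ := back_split e7
            have f4 : γ₁ ≠ [] := by
              rintro rfl
              apply hq
              rw [f3]; simp
            have f5 : γ₂ ≠ [] := by
              rintro rfl
              apply hl4
              rw [f2]; simp
            rw [f1] at hγ
            obtain ⟨x', k1, k2⟩ := isP_append.1 hγ
            have k3 : (XX hg hgeo hι).IsP (z • y) (((XX hg hgeo hι).rv γ₂).map (actE z)) (z • x') :=
              IsP_act z k2.rv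
            have k4 : l = al ++ γ ++ s ++ ((XX hg hgeo hι).rv γ₂).map (actE z) := by
              rw [e2, e4, e6, f2]; simp
            have k5 : z • x' = x := by
              rw [k4] at hl
              exact (isP_append.2 ⟨z • y, hn2, k3⟩ : (XX hg hgeo hι).IsP n
                (al ++ γ ++ s ++ ((XX hg hgeo hι).rv γ₂).map (actE z)) (z • x')).eq hl
            exact Loc.inD γ₁ γ₂ x' f1 f4 f5 k4 k5.symm k1 k2
        · refine caseE l₅ e7 ?_
          unfold lobe
          rw [e2, e4, e6, e8]
          simp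

/-- distances to `c` from the hub `H` -/
theorem far_H {c H : Car A B g} {x : XV A B g} (hx : On H x) :
    dCC hg hgeo hι c H ≤ dVC hg hgeo hι x c := by
  rw [dCC_comm]; exact dCC_le_dVC hx

/-- distances to `c` from `z H` -/
theorem far_zH {c H : Car A B g} {z : PP A B g} (hz : z • c = c) {x : XV A B g}
    (hx : On (z • H) x) : dCC hg hgeo hι c H ≤ dVC hg hgeo hι x c := by
  have h1 := far_H (hg := hg) (hgeo := hgeo) (hι := hι) (c := c) hx
  rwa [show dCC hg hgeo hι c (z • H) = dCC hg hgeo hι (z • c) (z • H) by rw [hz], dCC_smul] at h1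

theorem dVC_stab {c : Car A B g} {z : PP A B g} (hz : z • c = c) (x : XV A B g) :
    dVC hg hgeo hι (z • x) c = dVC hg hgeo hι x c := by
  conv_lhs => rw [← hz]
  rw [dVC_smul]

/-- an element of the stabilizer fixes no vertex outside of the carrier -/
theorem no_fix (hF : FixStmt A B g) {c : Car A B g} {z : PP A B g} (hz : z • c = c) (h1 : z ≠ 1)
    {x : XV A B g} (hx : ¬ On c x) : z • x ≠ x := by
  intro h
  by_cases hr : Rot z
  · exact hx (((hF c z h1 hz).1 hr x).1 h)
  · exact (hF c z h1 hz).2 hr x h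

/-- **minimal polygons are pinch free** -/
theorem q_pf (hF : FixStmt A B g) {c H : Car A B g} {z : PP A B g} (hz : z • c = c) (h1 : z ≠ 1)
    {n p : XV A B g} {k : ℕ} (hk : k = dCC hg hgeo hι c H) (hk1 : 1 ≤ k)
    (huniq : ∀ x, On H x → On (z • H) x → x = n) (hn : On H n) (hn' : On (z • H) n)
    {γ s al be : List (XE A B g)} (h : QP hg hgeo hι c H z n k p γ s al be)
    (hm : QMin hg hgeo hι c H z n k γ s al be) :
    (XX hg hgeo hι).PF (al ++ lobe hg hgeo hι z γ s ++ be) := by
  obtain ⟨y, hy, hγ, hs⟩ := h.lob.mid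
  have hlen := h.lob.len
  have hp : On H p := h.al.on hn
  have hkp : γ.length = dVC hg hgeo hι p c := by
    have a1 := far_H (hg := hg) (hgeo := hgeo) (hι := hι) (c := c) hp
    have a2 := dVC_path (hg := hg) (hgeo := hgeo) (hι := hι) hy hγ
    omega
  have farH : ∀ x, On H x → k ≤ dVC hg hgeo hι x c := fun x hx => by rw [hk]; exact far_H hx
  have farZ : ∀ x, On (z • H) x → k ≤ dVC hg hgeo hι x c := fun x hx => by
    rw [hk]; exact far_zH hz hx
  have slit : ∀ γ₁ γ₂ x, γ = γ₁ ++ γ₂ → (XX hg hgeo hι).IsP p γ₁ x → (XX hg hgeo hι).IsP x γ₂ y →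
      dVC hg hgeo hι x c = γ₂.length := by
    intro γ₁ γ₂ x e1 e2 e3
    refine (slit_dVC hy e2 e3 ?_).1
    rw [← hkp, e1, List.length_append]
  have onC : ∀ x, On c x → dVC hg hgeo hι x c = 0 := fun x hx => dVC_on hx
  intro p₁ q p₂ hw hq hpp hcl
  by_contra hcon
  rw [not_lt, hw] at hcon
  have hlq : 1 ≤ q.length := List.length_pos_iff.2 hq
  -- the vertices
  have hg' : (XX hg hgeo hι).IsP (z • y) (((XX hg hgeo hι).rv γ).map (actE z)) (z • p) :=
    IsP_act z hγ.rv
  have hwP : (XX hg hgeo hι).IsP n (al ++ lobe hg hgeo hι z γ s ++ be) n := by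
    refine isP_append.2 ⟨z • p, isP_append.2 ⟨p, h.al.1, ?_⟩, h.be.1⟩
    exact isP_append.2 ⟨z • y, isP_append.2 ⟨y, hγ, hs.1⟩, hg'⟩
  rw [hw] at hwP
  obtain ⟨x₂, k1, k2⟩ := isP_append.1 hwP
  obtain ⟨x, k3, k4⟩ := isP_append.1 k1
  have hx : x₂ = x := by
    obtain ⟨u, hu⟩ := hcl
    obtain ⟨e, q', rfl⟩ := List.exists_cons_of_ne_nil hq
    have e1 : x = u := k4.src_eq hu
    subst e1
    exact k4.eq hu
  subst hx
  have L1 := loc (hg := hg) (hgeo := hgeo) (hι := hι) (l := p₁) (r := q ++ p₂) h.al h.be hγ hs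
    (by rw [hw]; simp) k3
  have L2 := loc (hg := hg) (hgeo := hgeo) (hι := hι) (l := p₁ ++ q) (r := p₂) h.al h.be hγ hs
    (by rw [hw]) k1
  have hlw : (al ++ lobe hg hgeo hι z γ s ++ be).length = p₁.length + q.length + p₂.length := by
    rw [hw]; simp; omega
  have hlb : (lobe hg hgeo hι z γ s).length = k + s.length + k := by
    unfold lobe; simp [hlen]; omega
  simp only [List.length_append, hlb] at hlw
  cases L1 with
  | inA al₂ a1 a2 a3 a4 =>
    have hxH : On H x₂ := a3.on hn
    have hd := farH x₂ hxH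
    cases L2 with
    | inA al₂' b1 b2 b3 b4 =>
      -- block in al
      have hal2 : SideP hg hgeo hι H n p (p₁ ++ al₂') := a3.append hg hgeo hι b4
      have := hm p γ s (p₁ ++ al₂') be ⟨hal2, h.be, h.lob⟩
      have e5 : (p₁ ++ al₂') ++ lobe hg hgeo hι z γ s ++ be = p₁ ++ p₂ := by rw [b2]; simp
      rw [e5, hw] at this
      have e6 : al.length = p₁.length + q.length + al₂'.length := by
        have := congrArg List.length b1; simp only [List.length_append, List.length_map, rv_length, hlb] at this ⊢; omega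
      have := this.2 (by omega)
      simp only [List.length_append] at this
      omega
    | inB γ₁ γ₂ b1 b2 b3 b4 b5 b6 =>
      have := slit γ₁ γ₂ x₂ b1 b5 b6
      have e6 : γ.length = γ₁.length + γ₂.length := by
        have := congrArg List.length b1; simp only [List.length_append, List.length_map, rv_length, hlb] at this ⊢; omega
      have e7 : 1 ≤ γ₁.length := List.length_pos_iff.2 b2
      omega
    | inC s₁ s₂ b1 b2 b3 b4 b5 =>
      have := onC x₂ (b4.on hy)
      omega
    | inD γ₁ γ₂ x' b1 b2 b3 b4 b5 b6 b7 =>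
      have := slit γ₁ γ₂ x' b1 b6 b7
      rw [b5, dVC_stab hz] at hd
      have e6 : γ.length = γ₁.length + γ₂.length := by
        have := congrArg List.length b1; simp only [List.length_append, List.length_map, rv_length, hlb] at this ⊢; omega
      have e7 : 1 ≤ γ₁.length := List.length_pos_iff.2 b2
      omega
    | inE be₁ b1 b2 b3 b4 =>
      have hxn : x₂ = n := by
        apply huniq x₂ hxH
        have := b4.rev.on hn'
        exact this
      subst hxn
      have := hm p γ s al₂ be₁ ⟨a4, b3, h.lob⟩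
      have e5 : al₂ ++ lobe hg hgeo hι z γ s ++ be₁ = q := by
        have e1 : p₁ ++ (al₂ ++ lobe hg hgeo hι z γ s ++ be₁) ++ p₂ = p₁ ++ q ++ p₂ := by
          rw [← hw]
          conv_rhs => rw [a1, b1]
          simp
        have e2 := List.append_cancel_right e1
        exact List.append_cancel_left e2
      rw [e5, hw] at this
      have e6 : al.length = p₁.length + al₂.length := by
        have := congrArg List.length a1; simp only [List.length_append, List.length_map, rv_length, hlb] at this ⊢; omega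
      have e7 : be.length = be₁.length + p₂.length := by
        have := congrArg List.length b1; simp only [List.length_append, List.length_map, rv_length, hlb] at this ⊢; omega
      have e8 : 1 ≤ (p₁ ++ p₂).length := List.length_pos_iff.2 hpp
      rw [List.length_append] at e8
      have := this.2 (by omega)
      omega
  | inB γ₁ γ₂ a1 a2 a3 a4 a5 a6 =>
    have hd := slit γ₁ γ₂ x₂ a1 a5 a6
    have e6 : γ.length = γ₁.length + γ₂.length := by
        have := congrArg List.length a1; simp only [List.length_append, List.length_map, rv_length, hlb] at this ⊢; omega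
    have e7 : 1 ≤ γ₁.length := List.length_pos_iff.2 a2
    have e8 : 1 ≤ γ₂.length := List.length_pos_iff.2 a3
    have e9 : p₁.length = al.length + γ₁.length := by
        have := congrArg List.length a4; simp only [List.length_append, List.length_map, rv_length, hlb] at this ⊢; omega
    cases L2 with
    | inA al₂' b1 b2 b3 b4 =>
      have := farH x₂ (b3.on hn)
      omega
    | inB δ₁ δ₂ b1 b2 b3 b4 b5 b6 =>
      have := slit δ₁ δ₂ x₂ b1 b5 b6
      have f6 : γ.length = δ₁.length + δ₂.length := by
        have := congrArg List.length b1; simp only [List.length_append, List.length_map, rv_length, hlb] at this ⊢; omega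
      have f9 : (p₁ ++ q).length = al.length + δ₁.length := by
        have := congrArg List.length b4; simp only [List.length_append, List.length_map, rv_length, hlb] at this ⊢; omega
      rw [List.length_append] at f9
      omega
    | inC s₁ s₂ b1 b2 b3 b4 b5 =>
      have := onC x₂ (b4.on hy)
      omega
    | inD δ₁ δ₂ x' b1 b2 b3 b4 b5 b6 b7 =>
      have f1 := slit δ₁ δ₂ x' b1 b6 b7
      have f2 : dVC hg hgeo hι x₂ c = δ₂.length := by rw [b5, dVC_stab hz, f1]
      have f6 : γ.length = δ₁.length + δ₂.length := by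
        have := congrArg List.length b1; simp only [List.length_append, List.length_map, rv_length, hlb] at this ⊢; omega
      have f7 : γ₁ = δ₁ := by
        have : γ₁.length = δ₁.length := by omega
        have e := a1.symm.trans b1
        exact (List.append_inj e this).1
      subst f7
      have f8 : x' = x₂ := b6.eq a5
      subst f8
      refine no_fix hF hz h1 (x := x') ?_ b5.symm
      intro hx
      have := onC x' hx
      omega
    | inE be₁ b1 b2 b3 b4 =>
      have := farZ x₂ (b4.rev.on hn')
      omega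
  | inC s₁ s₂ a1 a2 a3 a4 a5 =>
    have hd := onC x₂ (a4.on hy)
    cases L2 with
    | inA al₂' b1 b2 b3 b4 =>
      have := farH x₂ (b3.on hn)
      omega
    | inB δ₁ δ₂ b1 b2 b3 b4 b5 b6 =>
      have := slit δ₁ δ₂ x₂ b1 b5 b6
      have e8 : 1 ≤ δ₂.length := List.length_pos_iff.2 b3
      omega
    | inC t₁ t₂ b1 b2 b3 b4 b5 =>
      have hs2 : SideP hg hgeo hι c y (z • y) (s₁ ++ t₂) := a4.append hg hgeo hι b5
      have e6 : t₁ = s₁ ++ q := by
        have : al ++ γ ++ t₁ = al ++ γ ++ (s₁ ++ q) := by rw [← b2, a2]; simp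
        exact List.append_cancel_left this
      have := hm p γ (s₁ ++ t₂) al be ⟨h.al, h.be, ⟨hlen, ⟨y, hy, hγ, hs2⟩, fun hr => by
        have e1 := h.lob.rot hr
        rw [b1, e6] at e1
        simp only [List.append_eq_nil_iff] at e1
        exact absurd e1.1.2 hq⟩⟩
      have e5 : al ++ lobe hg hgeo hι z γ (s₁ ++ t₂) ++ be = p₁ ++ p₂ := by
        unfold lobe
        rw [a2, b3]
        simp
      rw [e5, hw] at this
      have e7 : s.length = s₁.length + q.length + t₂.length := by
        rw [b1, e6]; simp; omega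
      have := this.2 (by omega)
      simp only [List.length_append] at this
      omega
    | inD δ₁ δ₂ x' b1 b2 b3 b4 b5 b6 b7 =>
      have f1 := slit δ₁ δ₂ x' b1 b6 b7
      have f2 : dVC hg hgeo hι x₂ c = δ₂.length := by rw [b5, dVC_stab hz, f1]
      have e8 : 1 ≤ δ₂.length := List.length_pos_iff.2 b3
      omega
    | inE be₁ b1 b2 b3 b4 =>
      have := farZ x₂ (b4.rev.on hn')
      omega
  | inD γ₁ γ₂ x' a1 a2 a3 a4 a5 a6 a7 =>
    have f1 := slit γ₁ γ₂ x' a1 a6 a7
    have hd : dVC hg hgeo hι x₂ c = γ₂.length := by rw [a5, dVC_stab hz, f1]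
    have e6 : γ.length = γ₁.length + γ₂.length := by
        have := congrArg List.length a1; simp only [List.length_append, List.length_map, rv_length, hlb] at this ⊢; omega
    have e7 : 1 ≤ γ₁.length := List.length_pos_iff.2 a2
    have e8 : 1 ≤ γ₂.length := List.length_pos_iff.2 a3
    have e9 : p₁.length = al.length + γ.length + s.length + γ₂.length := by
        have := congrArg List.length a4; simp only [List.length_append, List.length_map, rv_length, hlb] at this ⊢; omega
    cases L2 with
    | inA al₂' b1 b2 b3 b4 =>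
      have := farH x₂ (b3.on hn)
      omega
    | inB δ₁ δ₂ b1 b2 b3 b4 b5 b6 =>
      have f6 : γ.length = δ₁.length + δ₂.length := by
        have := congrArg List.length b1; simp only [List.length_append, List.length_map, rv_length, hlb] at this ⊢; omega
      have f9 : (p₁ ++ q).length = al.length + δ₁.length := by
        have := congrArg List.length b4; simp only [List.length_append, List.length_map, rv_length, hlb] at this ⊢; omega
      rw [List.length_append] at f9
      omega
    | inC s₁ s₂ b1 b2 b3 b4 b5 =>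
      have := onC x₂ (b4.on hy)
      omega
    | inD δ₁ δ₂ x'' b1 b2 b3 b4 b5 b6 b7 =>
      have g1 := slit δ₁ δ₂ x'' b1 b6 b7
      have g2 : dVC hg hgeo hι x₂ c = δ₂.length := by rw [b5, dVC_stab hz, g1]
      have g9 : (p₁ ++ q).length = al.length + γ.length + s.length + δ₂.length := by
        have := congrArg List.length b4; simp only [List.length_append, List.length_map, rv_length, hlb] at this ⊢; omega
      rw [List.length_append] at g9
      omega
    | inE be₁ b1 b2 b3 b4 =>
      have := farZ x₂ (b4.rev.on hn')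
      omega
  | inE be₁ a1 a2 a3 a4 =>
    have hd := farZ x₂ (a4.rev.on hn')
    have e9 : p₁.length = al.length + (k + s.length + k) + be₁.length := by
      rw [a2]; simp only [List.length_append, hlb]
    cases L2 with
    | inA al₂' b1 b2 b3 b4 =>
      have f9 : al.length = p₁.length + q.length + al₂'.length := by
        have := congrArg List.length b1; simp only [List.length_append, List.length_map, rv_length, hlb] at this ⊢; omega
      omega
    | inB δ₁ δ₂ b1 b2 b3 b4 b5 b6 =>
      have := slit δ₁ δ₂ x₂ b1 b5 b6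
      have f6 : γ.length = δ₁.length + δ₂.length := by
        have := congrArg List.length b1; simp only [List.length_append, List.length_map, rv_length, hlb] at this ⊢; omega
      have e7 : 1 ≤ δ₁.length := List.length_pos_iff.2 b2
      omega
    | inC s₁ s₂ b1 b2 b3 b4 b5 =>
      have := onC x₂ (b4.on hy)
      omega
    | inD δ₁ δ₂ x'' b1 b2 b3 b4 b5 b6 b7 =>
      have g1 := slit δ₁ δ₂ x'' b1 b6 b7
      have g2 : dVC hg hgeo hι x₂ c = δ₂.length := by rw [b5, dVC_stab hz, g1]
      have f6 : γ.length = δ₁.length + δ₂.length := by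
        have := congrArg List.length b1; simp only [List.length_append, List.length_map, rv_length, hlb] at this ⊢; omega
      have e7 : 1 ≤ δ₁.length := List.length_pos_iff.2 b2
      omega
    | inE be₂ b1 b2 b3 b4 =>
      have hbe2 : SideP hg hgeo hι (z • H) (z • p) n (be₁ ++ p₂) := a3.append hg hgeo hι b4
      have := hm p γ s al (be₁ ++ p₂) ⟨h.al, hbe2, h.lob⟩
      have e5 : al ++ lobe hg hgeo hι z γ s ++ (be₁ ++ p₂) = p₁ ++ p₂ := by rw [a2]; simp
      rw [e5, hw] at this
      have e6 : be.length = be₁.length + q.length + p₂.length := by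
        have := congrArg List.length a1; simp only [List.length_append, List.length_map, rv_length, hlb] at this ⊢; omega
      have := this.2 (by omega)
      simp only [List.length_append] at this
      omega

end Pool.Agent.ABA.B.H94
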